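import Pool.Agent.Q162.SP.Lin

/-!
# Project SP (helper62), job 11: the key lemma
-/

set_option autoImplicit false

open MeasureTheory Set Filter Topology

namespace Pool.Agent.Q162.SP

open Pool.Agent.Q62.SP

theorem t_KEY (hp1 : S_YBD) (hp2 : S_MON) (hp3 : S_LIN) : S_KEY := by
  intro x y hc s hs hxy
  obtain ⟨hmx, hmy⟩ := hp2 x y hc
  have hes : 0 < Real.exp s := Real.exp_pos s
  have hvs : |x s| * Real.exp s ≤ |y s| * Real.exp s / 70 := by
    have := mul_le_mul_of_nonneg_right hxy hes.le
    linarith
  have hu0 : 0 ≤ |y s| * Real.exp s := by positivity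
  refine ⟨fun h5 => ?_, fun h5 => ?_⟩
  · have h := const_aux hp1 x y hc s hs (fun r _ hr => (hmx hr).trans (by
      simp only
      linarith)) (fun r _ hr => (hmy hr).trans h5)
    exact h.symm
  · by_contra hy0
    rw [not_le] at hy0
    by_cases hv : |x s| * Real.exp s ≤ 5
    · have h := hp3 x y hc s hs hv hy0
      linarith
    · rw [not_le] at hv
      have hcy : Continuous fun r => |y r| * Real.exp r := by
        have h1 : Continuous y := continuous_iff_continuousAt.2 fun r => (hc r).2.continuousAt
        exact h1.abs.mul Real.continuous_exp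
      have h330 : (330 : ℝ) ∈ Icc (|y 0| * Real.exp 0) (|y s| * Real.exp s) := by
        constructor
        · rw [Real.exp_zero, mul_one]
          linarith
        · linarith
      obtain ⟨r, hr, hr2⟩ := intermediate_value_Icc hs hcy.continuousOn h330
      simp only at hr2
      -- beyond the time `r` the curve does not move
      have hz : ∀ t, r ≤ t → YA (x t) (y t) t = 0 ∧ YB (x t) (y t) t = 0 := by
        intro t ht
        refine hp1.2.2.2 _ _ _ (hr.1.trans ht) (Or.inr ?_)
        have h1 : 330 ≤ |y t| * Real.exp t := by
          rw [← hr2]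
          exact hmy ht
        have h2 : |y t| = |y t| * Real.exp t * Real.exp (-t) := by
          rw [mul_assoc, ← Real.exp_add]
          simp
        rw [h2]
        have h3 := mul_le_mul_of_nonneg_right h1 (Real.exp_pos (-t)).le
        linarith
      have hxs : x s = x r := constant_of_has_deriv_right_zero (f := x) (a := r) (b := s)
        (fun t _ => (hc t).1.continuousAt.continuousWithinAt) (fun t ht => by
          have h1 := (hc t).1.hasDerivWithinAt (s := Ici t)
          rw [(hz t ht.1).1] at h1
          exact h1) s ⟨hr.2, le_refl _⟩
      have hys : y s = y r := constant_of_has_deriv_right_zero (f := y) (a := r) (b := s)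
        (fun t _ => (hc t).2.continuousAt.continuousWithinAt) (fun t ht => by
          have h1 := (hc t).2.hasDerivWithinAt (s := Ici t)
          rw [(hz t ht.1).2] at h1
          exact h1) s ⟨hr.2, le_refl _⟩
      rw [hxs, hys] at hxy
      have hvr : |x r| * Real.exp r ≤ 5 := by
        have := mul_le_mul_of_nonneg_right hxy (Real.exp_pos r).le
        linarith
      have h := hp3 x y hc r hr.1 hvr hy0
      linarith

end Pool.Agent.Q162.SP
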