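import Pool.Agent.Q62.SP.Stm

/-!
# Project SP (helper62), job 10: below the front the height times `exp r` is constant
-/

set_option autoImplicit false

open MeasureTheory Set Filter Topology

namespace Pool.Agent.Q162.SP

open Pool.Agent.Q62.SP

theorem le_front {c r : ℝ} (h : |c| * Real.exp r ≤ 5) : |c| ≤ 5 * Real.exp (-r) := by
  have h1 : |c| = |c| * Real.exp r * Real.exp (-r) := by
    rw [mul_assoc, ← Real.exp_add]
    simp
  rw [h1]
  exact mul_le_mul_of_nonneg_right h (Real.exp_pos _).le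

/-- below the front `y exp r` is constant -/
theorem const_aux (hp1 : S_YBD) (x y : ℝ → ℝ) (hc : IsCurve x y) (R : ℝ) (hR : 0 ≤ R)
    (hx : ∀ r, 0 ≤ r → r ≤ R → |x r| * Real.exp r ≤ 5) (hy : ∀ r, 0 ≤ r → r ≤ R → |y r| * Real.exp r ≤ 5) :
    y R * Real.exp R = y 0 := by
  obtain ⟨-, -, h3, -⟩ := hp1
  have hd : ∀ r, HasDerivAt (fun r => y r * Real.exp r)
      (YB (x r) (y r) r * Real.exp r + y r * Real.exp r) r := fun r =>
    (hc r).2.mul (Real.hasDerivAt_exp r)
  have h := constant_of_has_deriv_right_zero (f := fun r => y r * Real.exp r) (a := 0) (b := R)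
    (fun r _ => (hd r).continuousAt.continuousWithinAt) (fun r hr => by
      have h4 := (h3 (x r) (y r) r hr.1 (le_front (hx r hr.1 hr.2.le))
        (le_front (hy r hr.1 hr.2.le))).2
      have h5 := (hd r).hasDerivWithinAt (s := Ici r)
      rw [h4] at h5
      refine h5.congr_deriv ?_
      ring) R ⟨hR, le_refl _⟩
  simp only [Real.exp_zero, mul_one] at h
  exact h

theorem t_LIN (hp1 : S_YBD) (hp2 : S_MON) : S_LIN := by
  intro x y hc R hR hxR hy0
  obtain ⟨hmx, hmy⟩ := hp2 x y hc
  have hxx : ∀ r, 0 ≤ r → r ≤ R → |x r| * Real.exp r ≤ 5 := fun r _ h1 => (hmx h1).trans hxR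
  have hcy : Continuous fun r => |y r| * Real.exp r := by
    have h1 : Continuous y := continuous_iff_continuousAt.2 fun r => (hc r).2.continuousAt
    exact h1.abs.mul Real.continuous_exp
  have key : ∀ r, 0 ≤ r → r ≤ R → |y r| * Real.exp r ≤ 5 → |y r| * Real.exp r = |y 0| := by
    intro r h0 h1 h2
    have h3 := const_aux hp1 x y hc r h0 (fun t ht0 ht1 => hxx t ht0 (ht1.trans h1))
      (fun t _ ht1 => (hmy ht1).trans h2)
    rw [← h3, abs_mul, abs_of_pos (Real.exp_pos r)]
  by_cases h5 : |y R| * Real.exp R ≤ 5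
  · exact key R hR le_rfl h5
  · exfalso
    rw [not_le] at h5
    have h6 : (5 : ℝ) ∈ Icc (|y 0| * Real.exp 0) (|y R| * Real.exp R) := by
      constructor
      · rw [Real.exp_zero, mul_one]
        exact hy0.le
      · exact h5.le
    obtain ⟨r, hr, hr5⟩ := intermediate_value_Icc hR hcy.continuousOn h6
    simp only at hr5
    have h7 := key r hr.1 hr.2 hr5.le
    rw [hr5] at h7
    linarith

end Pool.Agent.Q162.SP
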