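import Pool.Agent.Q62.SP.Stm

/-!
# Project SP (helper62), job 9: two monotone quantities
-/

set_option autoImplicit false

open MeasureTheory Set Filter Topology

namespace Pool.Agent.Q162.SP

open Pool.Agent.Q62.SP

/-- if `|u'| ≤ |u|` then `|u| exp r` is nondecreasing -/
theorem mono_aux (u u' : ℝ → ℝ) (h : ∀ r, HasDerivAt u (u' r) r) (hb : ∀ r, |u' r| ≤ |u r|) :
    Monotone (fun r => |u r| * Real.exp r) := by
  have hd : ∀ r, HasDerivAt (fun r => (u r * Real.exp r) ^ 2)
      (2 * (u r * Real.exp r) * (u' r * Real.exp r + u r * Real.exp r)) r := by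
    intro r
    have h1 := ((h r).mul (Real.hasDerivAt_exp r)).pow 2
    refine h1.congr_deriv ?_
    simp
  have hm : Monotone (fun r => (u r * Real.exp r) ^ 2) := by
    refine monotone_of_deriv_nonneg (fun r => (hd r).differentiableAt) fun r => ?_
    rw [(hd r).deriv]
    have h1 : -(u r ^ 2) ≤ u r * u' r := by
      have h2 : |u r * u' r| ≤ |u r| * |u r| := by
        rw [abs_mul]
        exact mul_le_mul_of_nonneg_left (hb r) (abs_nonneg _)
      have h3 := (abs_le.1 h2).1
      rw [abs_mul_abs_self] at h3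
      nlinarith
    have h2 : 0 < Real.exp r := Real.exp_pos r
    have h3 : 2 * (u r * Real.exp r) * (u' r * Real.exp r + u r * Real.exp r) =
        2 * Real.exp r ^ 2 * (u r * u' r + u r ^ 2) := by ring
    rw [h3]
    have h4 : 0 ≤ u r * u' r + u r ^ 2 := by linarith
    positivity
  intro r s hrs
  have h1 := sq_le_sq.1 (hm hrs)
  simp only
  rw [abs_mul, abs_mul, abs_of_pos (Real.exp_pos r), abs_of_pos (Real.exp_pos s)] at h1
  exact h1

theorem t_MON (hp1 : S_YBD) : S_MON := by
  obtain ⟨h1, -⟩ := hp1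
  intro x y hc
  exact ⟨mono_aux x _ (fun r => (hc r).1) fun r => (h1 _ _ _).1,
    mono_aux y _ (fun r => (hc r).2) fun r => (h1 _ _ _).2⟩

end Pool.Agent.Q162.SP
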