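import Pool.Agent.Q62.SP.Stm

/-!
# Project SP (helper62), job 6: bounds for the velocity
-/

set_option autoImplicit false

open MeasureTheory Set Filter Topology

namespace Pool.Agent.Q162.SP

open Pool.Agent.Q62.SP

/-- a convex combination with the weights `G n` of numbers `v n` is bounded like the `v n` -/
theorem wavg_le {G v : ℕ → ℝ} {M : ℝ} (hG : ∀ n, 0 ≤ G n) (hs : Summable G) (hF : 0 < ∑' n, G n)
    (hv : ∀ n, |v n| ≤ M) : |(∑' n, G n * v n) / ∑' n, G n| ≤ M := by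
  have h1 : ∀ n, ‖G n * v n‖ ≤ G n * M := fun n => by
    rw [Real.norm_eq_abs, abs_mul, abs_of_nonneg (hG n)]
    exact mul_le_mul_of_nonneg_left (hv n) (hG n)
  have h2 : Summable fun n => G n * M := hs.mul_right M
  have h3 : ‖∑' n, G n * v n‖ ≤ ∑' n, G n * M := tsum_of_norm_bounded h2.hasSum h1
  rw [tsum_mul_right] at h3
  rw [abs_div, abs_of_pos hF, div_le_iff₀ hF, mul_comm M]
  exact h3

theorem wavg_eq {G v : ℕ → ℝ} {M : ℝ} (hF : 0 < ∑' n, G n)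
    (hv : ∀ n, G n ≠ 0 → v n = M) : (∑' n, G n * v n) / ∑' n, G n = M := by
  have h1 : ∀ n, G n * v n = G n * M := fun n => by
    by_cases h : G n = 0
    · rw [h, zero_mul, zero_mul]
    · rw [hv n h]
  rw [tsum_congr h1, tsum_mul_right, mul_div_assoc, mul_comm, div_mul_cancel₀ _ hF.ne']

theorem VA_le (hp1 : S_PHI) (n : ℕ) (a b : ℝ) : |VA n a b| ≤ |a| := by
  obtain ⟨-, ⟨-, hq, -⟩, ⟨-, -, -, -, -, -, hP⟩, -⟩ := hp1
  have h1 := hP (2 ^ n * a / 11)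
  have h2 : |qq (2 ^ n * b / 11)| ≤ 1 := abs_le.2 ⟨by linarith [(hq (2 ^ n * b / 11)).1], (hq _).2⟩
  have h3 : |(11 / 2 ^ n : ℝ)| * |2 ^ n * a / 11| = |a| := by
    rw [← abs_mul]
    congr 1
    field_simp
  unfold VA
  rw [abs_mul, abs_mul]
  calc |(11 / 2 ^ n : ℝ)| * |PP (2 ^ n * a / 11)| * |qq (2 ^ n * b / 11)| ≤
        |(11 / 2 ^ n : ℝ)| * |2 ^ n * a / 11| * 1 := by
          apply mul_le_mul (mul_le_mul_of_nonneg_left h1 (abs_nonneg _)) h2 (abs_nonneg _)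
          positivity
    _ = |a| := by rw [h3, mul_one]

theorem VB_le (hp1 : S_PHI) (n : ℕ) (a b : ℝ) : |VB n a b| ≤ |b| := by
  have h := VA_le hp1 n b a
  unfold VA at h
  unfold VB
  rw [abs_neg]
  refine le_of_eq_of_le ?_ h
  congr 1
  ring

/-- outside `6` cells the fields vanish -/
theorem V_zero (hp1 : S_PHI) (n : ℕ) (a b : ℝ) (h : 66 / 2 ^ n ≤ |a| ∨ 66 / 2 ^ n ≤ |b|) :
    VA n a b = 0 ∧ VB n a b = 0 := by
  obtain ⟨-, ⟨-, -, -, hq, -⟩, ⟨-, -, -, hP, -, -, -⟩, -⟩ := hp1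
  have key : ∀ c : ℝ, 66 / 2 ^ n ≤ |c| → 6 ≤ |2 ^ n * c / 11| := by
    intro c hc
    have h1 : |2 ^ n * c / 11| = 2 ^ n * |c| / 11 := by
      rw [abs_div, abs_mul, abs_of_pos (show (0 : ℝ) < 2 ^ n by positivity),
        abs_of_pos (show (0 : ℝ) < 11 by norm_num)]
    rw [h1]
    rw [div_le_iff₀ (by positivity)] at hc
    linarith
  unfold VA VB
  rcases h with h | h
  · have h1 := key a h
    rw [hP _ h1, hq _ h1]
    simp
  · have h1 := key b h
    rw [hP _ h1, hq _ h1]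
    simp

/-- in the cell the field is linear -/
theorem V_lin (hp1 : S_PHI) (n : ℕ) (a b : ℝ) (ha : |a| ≤ 11 / 2 ^ n) (hb : |b| ≤ 11 / 2 ^ n) :
    VA n a b = a ∧ VB n a b = -b := by
  obtain ⟨-, ⟨-, -, hq, -⟩, ⟨-, -, hP, -⟩, -⟩ := hp1
  have key : ∀ c : ℝ, |c| ≤ 11 / 2 ^ n → |2 ^ n * c / 11| ≤ 1 := by
    intro c hc
    have h1 : |2 ^ n * c / 11| = 2 ^ n * |c| / 11 := by
      rw [abs_div, abs_mul, abs_of_pos (show (0 : ℝ) < 2 ^ n by positivity),
        abs_of_pos (show (0 : ℝ) < 11 by norm_num)]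
    rw [h1]
    rw [le_div_iff₀ (by positivity)] at hc
    linarith
  unfold VA VB
  rw [hP _ (key a ha), hP _ (key b hb), hq _ (key a ha), hq _ (key b hb)]
  constructor
  · field_simp
  · field_simp

theorem t_YBD (hp1 : S_PHI) (hp2 : S_FFP) : S_YBD := by
  obtain ⟨-, hG, -, hsum, -, hF, -, -, hwin, -⟩ := hp2
  have hF2 : ∀ s, 0 < ∑' n, GG n s := hF
  refine ⟨?_, ?_, ?_, ?_⟩
  · intro a b s
    exact ⟨wavg_le (fun n => hG n s) (hsum s) (hF2 s) fun n => VA_le hp1 n a b,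
      wavg_le (fun n => hG n s) (hsum s) (hF2 s) fun n => VB_le hp1 n a b⟩
  · intro a b s hab
    have h1 : ∀ n : ℕ, (66 : ℝ) / 2 ^ n ≤ 66 := fun n => by
      rw [div_le_iff₀ (by positivity)]
      have : (1 : ℝ) ≤ 2 ^ n := one_le_pow₀ (by norm_num)
      linarith
    have h2 : ∀ n, VA n a b = 0 ∧ VB n a b = 0 := fun n =>
      V_zero hp1 n a b (hab.imp (fun h => (h1 n).trans h) fun h => (h1 n).trans h)
    exact ⟨wavg_eq (hF2 s) fun n _ => (h2 n).1, wavg_eq (hF2 s) fun n _ => (h2 n).2⟩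
  · intro a b s hs ha hb
    have h2 : ∀ n, GG n s ≠ 0 → VA n a b = a ∧ VB n a b = -b := fun n hn => by
      have h3 := (hwin n s hs hn).1
      have h4 : 5 * Real.exp (-s) ≤ 11 / 2 ^ n := by
        rw [div_eq_mul_one_div]
        exact h3.le
      exact V_lin hp1 n a b (ha.trans h4) (hb.trans h4)
    exact ⟨wavg_eq (hF2 s) fun n hn => (h2 n hn).1, wavg_eq (hF2 s) fun n hn => (h2 n hn).2⟩
  · intro a b s hs hab
    have h2 : ∀ n, GG n s ≠ 0 → VA n a b = 0 ∧ VB n a b = 0 := fun n hn => by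
      have h3 := (hwin n s hs hn).2
      have h4 : (66 : ℝ) / 2 ^ n ≤ 66 * (5 * Real.exp (-s)) := by
        rw [div_eq_mul_one_div]
        linarith
      exact V_zero hp1 n a b (hab.imp (fun h => h4.trans h) fun h => h4.trans h)
    exact ⟨wavg_eq (hF2 s) fun n hn => (h2 n hn).1, wavg_eq (hF2 s) fun n hn => (h2 n hn).2⟩

end Pool.Agent.Q162.SP
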