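import Pool.Agent.Q62.SP.Stm

/-!
# Project SP (helper62), job 5: the velocity is smooth
-/

set_option autoImplicit false

open MeasureTheory Set Filter Topology
open scoped ContDiff

namespace Pool.Agent.Q162.SP

open Pool.Agent.Q62.SP

/-- a locally finite weighted average of smooth functions is smooth -/
theorem smooth_avg (hp2 : S_FFP) (v : ℕ → ℝ → ℝ → ℝ)
    (hv : ∀ n, ContDiff ℝ ∞ (fun z : ℝ × ℝ × ℝ => v n z.1 z.2.1)) :
    ContDiff ℝ ∞ (fun z : ℝ × ℝ × ℝ => (∑' n, GG n z.2.2 * v n z.1 z.2.1) / FF z.2.2) := by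
  obtain ⟨hGs, -, hG0, -, hFs, hF, -⟩ := hp2
  rw [contDiff_iff_contDiffAt]
  intro z0
  obtain ⟨N, hN⟩ : ∃ N : ℕ, 11 * Real.exp (z0.2.2 + 1) / 5 < 2 ^ N := pow_unbounded_of_one_lt _ (by norm_num)
  have hz : ∀ z : ℝ × ℝ × ℝ, z.2.2 < z0.2.2 + 1 → ∀ n, n ∉ Finset.range (N + 1) → GG n z.2.2 = 0 := by
    intro z hz n hn
    rw [Finset.mem_range, not_lt] at hn
    apply hG0 n z.2.2 (by omega)
    have h1 : Real.exp z.2.2 ≤ Real.exp (z0.2.2 + 1) := Real.exp_le_exp.2 hz.le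
    have h2 : (2 : ℝ) ^ N ≤ 2 ^ n := pow_le_pow_right₀ (by norm_num) (by omega)
    linarith
  have hsum : ContDiff ℝ ∞ (fun z : ℝ × ℝ × ℝ =>
      (∑ n ∈ Finset.range (N + 1), GG n z.2.2 * v n z.1 z.2.1) / FF z.2.2) := by
    have hs : ContDiff ℝ ∞ (fun z : ℝ × ℝ × ℝ => z.2.2) := contDiff_snd.comp contDiff_snd
    refine ContDiff.div ?_ (hFs.comp hs) fun z => (hF z.2.2).ne'
    exact ContDiff.sum fun n _ => ((hGs n).comp hs).mul (hv n)
  refine hsum.contDiffAt.congr_of_eventuallyEq ?_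
  have hopen : ∀ᶠ z : ℝ × ℝ × ℝ in 𝓝 z0, z.2.2 < z0.2.2 + 1 := by
    have hc : Continuous fun z : ℝ × ℝ × ℝ => z.2.2 := continuous_snd.comp continuous_snd
    exact hc.continuousAt.eventually_lt continuousAt_const (by simp)
  filter_upwards [hopen] with z hz1
  rw [tsum_eq_sum (s := Finset.range (N + 1))]
  intro n hn
  rw [hz z hz1 n hn, zero_mul]

theorem t_YSM (hp1 : S_PHI) (hp2 : S_FFP) : S_YSM := by
  obtain ⟨-, ⟨hq, -⟩, ⟨hP, -⟩, -⟩ := hp1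
  have ha : ContDiff ℝ ∞ (fun z : ℝ × ℝ × ℝ => z.1) := contDiff_fst
  have hb : ContDiff ℝ ∞ (fun z : ℝ × ℝ × ℝ => z.2.1) := contDiff_fst.comp contDiff_snd
  refine ⟨smooth_avg hp2 VA fun n => ?_, smooth_avg hp2 VB fun n => ?_⟩
  · unfold VA
    have h1 : ContDiff ℝ ∞ (fun z : ℝ × ℝ × ℝ => PP (2 ^ n * z.1 / 11)) :=
      hP.comp ((contDiff_const.mul ha).div_const _)
    have h2 : ContDiff ℝ ∞ (fun z : ℝ × ℝ × ℝ => qq (2 ^ n * z.2.1 / 11)) :=
      hq.comp ((contDiff_const.mul hb).div_const _)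
    exact (contDiff_const.mul h1).mul h2
  · unfold VB
    have h1 : ContDiff ℝ ∞ (fun z : ℝ × ℝ × ℝ => PP (2 ^ n * z.2.1 / 11)) :=
      hP.comp ((contDiff_const.mul hb).div_const _)
    have h2 : ContDiff ℝ ∞ (fun z : ℝ × ℝ × ℝ => qq (2 ^ n * z.1 / 11)) :=
      hq.comp ((contDiff_const.mul ha).div_const _)
    exact ((contDiff_const.mul h2).mul h1).neg

end Pool.Agent.Q162.SP
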